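import Pool.Agent.Lib.MP_c7af3c_ag.T2.IfaceB
import Pool.Agent.Lib.MP_c7af3c_ag.EDGE.H60.Pas
import Pool.Agent.Lib.MP_c7af3c_ag.EDGE.H9.Bez
import Pool.Agent.Lib.MP_c7af3c_ag.SHARP.H54.Root

/-!
# MP_c7af3c_ag, project T2, row PHI: the forms which move neither the point nor the plane
-/

set_option autoImplicit false

namespace Pool.Agent.T2.H79

open MvPolynomial Pool.Agent.Gen Pool.Agent.Sharp Pool.Agent.Edge
open Pool.Agent.Sharp.H75 (dco DG af)
open Pool.Agent.Edge.H65 (ssub)

section

variable {K : Type} [Field K] {D : D6 K} {x : Fin 5 → K} {t : Fin 3 → Fin 5}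
  {P : Fin 3 → Fin 5 → K}

theorem V_der (u : Fin 5 → K) (G : MvPolynomial (Fin 5) K) (f : Fin 5) :
    D.V u 0 G f = der D G (u f) := by
  unfold der
  rw [← Sharp.H75.VT_apply, Sharp.H75.VT_eq, Fin.sum_univ_one]

theorem ssub_rename (hP : ∀ i j, P i (t j) = if i = j then 1 else 0)
    (g : MvPolynomial (Fin 3) K) : ssub P (rename t g) = g := by
  have h : (ssub P).comp (rename t) = AlgHom.id K _ := by
    refine MvPolynomial.algHom_ext fun i => ?_
    rw [AlgHom.comp_apply, rename_X, Edge.H65.ssub_X, AlgHom.id_apply]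
    rw [Finset.sum_eq_single i]
    · rw [hP, if_pos rfl, C_1, one_mul]
    · intro j _ hj
      rw [hP, if_neg hj, C_0, zero_mul]
    · intro h; exact absurd (Finset.mem_univ _) h
  exact DFunLike.congr_fun h g

theorem V_t0 (h : Pl D x t P) (G : MvPolynomial (Fin 5) K) : D.V x 0 G (t 0) = 0 := by
  rw [V_der, h.x0]
  exact (der D G).map_one_eq_zero

theorem V_Pt (h : Pl D x t P) (G : MvPolynomial (Fin 5) K) (i j : Fin 3) :
    D.V (P i) 0 G (t j) = 0 := by
  rw [V_der, h.Pt]
  split_ifs
  · exact (der D G).map_one_eq_zero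
  · exact map_zero _

theorem V_x (h : Pl D x t P) (G : MvPolynomial (Fin 5) K) (f : Fin 5) :
    D.V x 0 G f = ∑ i, (P i f * D.V x 0 G (t i) + x (t i) * D.V (P i) 0 G f) := by
  rw [V_der, h.xP f, map_sum]
  refine Finset.sum_congr rfl fun i _ => ?_
  rw [Derivation.leibniz, smul_eq_mul, smul_eq_mul, V_der, V_der]

/-- the variation depends only on the restriction to the plane -/
theorem V_rest (h : Pl D x t P) {G : MvPolynomial (Fin 5) K} (hG : G.IsHomogeneous 6) :
    D.V x 0 (rename t (ssub P G)) = D.V x 0 G ∧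
      ∀ i, D.V (P i) 0 (rename t (ssub P G)) = D.V (P i) 0 G := by
  have hg : (G - rename t (ssub P G)).IsHomogeneous 6 :=
    hG.sub (Edge.H65.ssub_hom P hG).rename_isHomogeneous
  have h0 : ssub P (G - rename t (ssub P G)) = 0 := by
    rw [map_sub, ssub_rename h.Pt, sub_self]
  obtain ⟨h1, h2⟩ := h.int _ hg h0
  refine ⟨?_, fun i => ?_⟩
  · rw [map_sub, sub_eq_zero] at h1
    exact h1.symm
  · have h3 := h2 i
    rw [map_sub, sub_eq_zero] at h3
    exact h3.symm

/-! ### the dimension -/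

/-- the coordinates off the plane -/
abbrev Off (t : Fin 3 → Fin 5) : Type := {f : Fin 5 // f ∉ Set.range t}

theorem card_off (ht : Function.Injective t) : Nat.card (Off t) = 2 := by
  classical
  have h1 : Nat.card {f : Fin 5 // f ∈ Set.range t} = 3 := by
    have := Nat.card_congr (Equiv.ofInjective t ht)
    rw [Nat.card_eq_fintype_card, Fintype.card_fin] at this
    exact this.symm
  have h2 : Nat.card {f : Fin 5 // f ∈ Set.range t} + Nat.card (Off t) = Nat.card (Fin 5) := by
    rw [Nat.card_eq_fintype_card, Nat.card_eq_fintype_card, Nat.card_eq_fintype_card]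
    have := Fintype.card_subtype_compl (fun f : Fin 5 => f ∈ Set.range t)
    have h3 : Fintype.card {f : Fin 5 // f ∈ Set.range t} ≤ Fintype.card (Fin 5) :=
      Fintype.card_subtype_le _
    have h4 : Fintype.card (Off t) = Fintype.card {f : Fin 5 // ¬ f ∈ Set.range t} := rfl
    omega
  rw [h1, Nat.card_eq_fintype_card (α := Fin 5), Fintype.card_fin] at h2
  omega

variable (D x t P) in
/-- the eight coordinates of the variation of the flag -/
noncomputable def Psi : MvPolynomial (Fin 3) K →ₗ[K] (Fin 2 → K) × (Fin 3 → Off t → K) :=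
  LinearMap.prod
    (LinearMap.pi fun a => (LinearMap.proj (t a.succ)).comp ((D.V x 0).comp
      (rename t).toLinearMap))
    (LinearMap.pi fun i => LinearMap.pi fun f => (LinearMap.proj f.1).comp
      ((D.V (P i) 0).comp (rename t).toLinearMap))

theorem Psi_fst (g : MvPolynomial (Fin 3) K) (a : Fin 2) :
    (Psi D x t P g).1 a = D.V x 0 (rename t g) (t a.succ) := rfl

theorem Psi_snd (g : MvPolynomial (Fin 3) K) (i : Fin 3) (f : Off t) :
    (Psi D x t P g).2 i f = D.V (P i) 0 (rename t g) f.1 := rfl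

theorem Psi_ker (h : Pl D x t P) {g : MvPolynomial (Fin 3) K} (hg : g.IsHomogeneous 6) :
    Psi D x t P g = 0 ↔ g ∈ R6 D x t P := by
  constructor
  · intro h0
    have h1 : ∀ i, D.V (P i) 0 (rename t g) = 0 := by
      intro i
      funext f
      by_cases hf : f ∈ Set.range t
      · obtain ⟨j, rfl⟩ := hf
        exact V_Pt h _ i j
      · have := congrFun (congrFun (congrArg Prod.snd h0) i) ⟨f, hf⟩
        exact this
    have h2 : ∀ i, D.V x 0 (rename t g) (t i) = 0 := by
      intro i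
      refine Fin.cases ?_ (fun a => ?_) i
      · exact V_t0 h _
      · exact congrFun (congrArg Prod.fst h0) a
    refine ⟨hg, ?_, h1⟩
    funext f
    rw [V_x h, Pi.zero_apply]
    refine Finset.sum_eq_zero fun i _ => ?_
    rw [h1, h2, Pi.zero_apply, mul_zero, mul_zero, add_zero]
  · rintro ⟨-, h1, h2⟩
    refine Prod.ext ?_ ?_
    · funext a
      rw [Psi_fst, h1]
      rfl
    · funext i f
      rw [Psi_snd, h2]
      rfl

/-- the matrix with the given values on the frame -/
noncomputable def mE (t : Fin 3 → Fin 5) (τ : Fin 3 → Fin 5 → K) : Fin 5 → Fin 5 → K :=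
  fun f q => ∑ j, if q = t j then τ j f else 0

theorem mE_apply (τ : Fin 3 → Fin 5 → K) (v : Fin 5 → K) (f : Fin 5) :
    ∑ q, mE t τ f q * v q = ∑ j, τ j f * v (t j) := by
  unfold mE
  simp only [Finset.sum_mul]
  rw [Finset.sum_comm]
  refine Finset.sum_congr rfl fun j _ => ?_
  rw [Finset.sum_eq_single (t j)]
  · rw [if_pos rfl]
  · intro q _ hq
    rw [if_neg hq, zero_mul]
  · intro h; exact absurd (Finset.mem_univ _) h

theorem mE_P (h : Pl D x t P) (τ : Fin 3 → Fin 5 → K) (i : Fin 3) (f : Fin 5) :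
    ∑ q, mE t τ f q * P i q = τ i f := by
  rw [mE_apply, Finset.sum_eq_single i]
  · rw [h.Pt, if_pos rfl, mul_one]
  · intro j _ hj
    rw [h.Pt, if_neg (Ne.symm hj), mul_zero]
  · intro h; exact absurd (Finset.mem_univ _) h

/-- PCAN for the matrix `mE` -/
theorem pcan_mE (hc : PcanStatement) [CharZero K] (h : Pl D x t P) (τ : Fin 3 → Fin 5 → K) :
    (∀ f, D.V x 0 (rename t (ssub P (af (mE t τ) (D.F 0)))) f =
      (∑ j, τ j (t 0) * x (t j)) * x f - ∑ j, τ j f * x (t j)) ∧
    ∀ i f, D.V (P i) 0 (rename t (ssub P (af (mE t τ) (D.F 0)))) f =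
      ∑ j, τ i (t j) * P j f - τ i f := by
  obtain ⟨h1, h2⟩ := hc K D x t P h (mE t τ)
  obtain ⟨h3, h4⟩ := V_rest h (Sharp.H75.af_hom (mE t τ) (D.hom 0))
  refine ⟨fun f => ?_, fun i f => ?_⟩
  · rw [h3]
    have := h1 f
    rw [mE_apply, mE_apply] at this
    rw [← this]
    ring
  · rw [h4]
    have := h2 i f
    rw [mE_P h] at this
    rw [eq_sub_iff_add_eq, this]
    refine Finset.sum_congr rfl fun j _ => ?_
    unfold mat
    rw [mE_P h]

theorem hom_afE (E : Fin 5 → Fin 5 → K) : (ssub P (af E (D.F 0))).IsHomogeneous 6 :=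
  Edge.H65.ssub_hom P (Sharp.H75.af_hom E (D.hom 0))

theorem Psi_surj (hc : PcanStatement) [CharZero K] (h : Pl D x t P)
    (a : Fin 2 → K) (w : Fin 3 → Off t → K) :
    ∃ g : MvPolynomial (Fin 3) K, g.IsHomogeneous 6 ∧ Psi D x t P g = (a, w) := by
  classical
  let c : Fin 3 → Fin 3 → K := fun i => Fin.cases (fun l => Fin.cases 0 (fun a' => - a a') l)
    (fun _ _ => 0) i
  have hc0 : ∀ l, c 0 l = Fin.cases 0 (fun a' => - a a') l := fun l => rfl
  have hcs : ∀ (i : Fin 2) l, c i.succ l = 0 := fun i l => rfl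
  let w' : Fin 3 → Fin 5 → K := fun i f => if hf : f ∉ Set.range t then w i ⟨f, hf⟩ else 0
  have hw1 : ∀ i (f : Off t), w' i f.1 = w i f := fun i f => dif_pos f.2
  have hw2 : ∀ i j, w' i (t j) = 0 := fun i j => dif_neg (not_not.2 ⟨j, rfl⟩)
  let τ : Fin 3 → Fin 5 → K := fun i f => ∑ j, c i j * P j f - w' i f
  have hτ1 : ∀ i j, τ i (t j) = c i j := by
    intro i j
    change ∑ l, c i l * P l (t j) - w' i (t j) = _
    rw [hw2, sub_zero, Finset.sum_eq_single j]
    · rw [h.Pt, if_pos rfl, mul_one]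
    · intro l _ hl
      rw [h.Pt, if_neg hl, mul_zero]
    · intro h; exact absurd (Finset.mem_univ _) h
  obtain ⟨h1, h2⟩ := pcan_mE hc h τ
  refine ⟨ssub P (af (mE t τ) (D.F 0)), hom_afE _, Prod.ext ?_ ?_⟩
  · funext a'
    rw [Psi_fst, h1]
    simp only [hτ1]
    rw [Fin.sum_univ_succ, Fin.sum_univ_succ (f := fun j => c j a'.succ * x (t j)), hc0, hc0, h.x0]
    simp only [hcs]
    simp
  · funext i f
    rw [Psi_snd, h2]
    simp only [hτ1]
    change ∑ j, c i j * P j f.1 - (∑ j, c i j * P j f.1 - w' i f.1) = w i f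
    rw [hw1]
    ring

theorem finrank_R6 (hc : PcanStatement) [CharZero K] (h : Pl D x t P) :
    Module.finrank K (R6 D x t P) = 20 := by
  classical
  have hfin : Module.Finite K (S3 K 6) := Edge.H65.finite_hom3 K 6
  let ψ := (Psi D x t P).domRestrict (S3 K 6)
  have hψ : Function.Surjective ψ := by
    rintro ⟨a, w⟩
    obtain ⟨g, hg, hg'⟩ := Psi_surj hc h a w
    exact ⟨⟨g, hg⟩, hg'⟩
  have h1 := LinearMap.finrank_range_add_finrank_ker ψ
  rw [LinearMap.range_eq_top.2 hψ, finrank_top, Edge.H65.finrank_hom3 K 6] at h1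
  have h2 : Module.finrank K ((Fin 2 → K) × (Fin 3 → Off t → K)) = 8 := by
    rw [Module.finrank_prod, Module.finrank_fin_fun]
    have : Module.finrank K (Fin 3 → Off t → K) = 3 * Module.finrank K (Off t → K) := by
      rw [Module.finrank_pi_fintype]
      simp
    rw [this, Module.finrank_fintype_fun_eq_card, ← Nat.card_eq_fintype_card, card_off h.inj]
  rw [h2] at h1
  have h3 : R6 D x t P = (LinearMap.ker ψ).map (S3 K 6).subtype := by
    ext g
    constructor
    · intro hg
      exact ⟨⟨g, hg.1⟩, (Psi_ker h hg.1).2 hg, rfl⟩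
    · rintro ⟨g, hg, rfl⟩
      exact (Psi_ker h g.2).1 hg
  rw [h3, Submodule.finrank_map_subtype_eq]
  have h4 : (6 + 2).choose 2 = 28 := by decide
  rw [h4] at h1
  omega

/-! ### a line in the plane -/

variable (D x t P) in
/-- the variation of the point and of the frame -/
noncomputable def Phi : MvPolynomial (Fin 3) K →ₗ[K] (Fin 5 → K) × (Fin 3 → Fin 5 → K) :=
  LinearMap.prod ((D.V x 0).comp (rename t).toLinearMap)
    (LinearMap.pi fun i => (D.V (P i) 0).comp (rename t).toLinearMap)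

theorem Phi_fst (g : MvPolynomial (Fin 3) K) : (Phi D x t P g).1 = D.V x 0 (rename t g) := rfl

theorem Phi_snd (g : MvPolynomial (Fin 3) K) (i : Fin 3) :
    (Phi D x t P g).2 i = D.V (P i) 0 (rename t g) := rfl

theorem mulS_le (z : MvPolynomial (Fin 3) K) (hz : z.IsHomogeneous 1) : mulS z 5 ≤ S3 K 6 := by
  rintro _ ⟨b, hb, rfl⟩
  have h1 : (z * b).IsHomogeneous (1 + 5) := hz.mul hb
  exact h1

theorem fin_le {N : Submodule K (MvPolynomial (Fin 3) K)} (h : N ≤ S3 K 6) :
    Module.Finite K N := by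
  have hfin : Module.Finite K (S3 K 6) := Edge.H65.finite_hom3 K 6
  exact Submodule.finiteDimensional_of_le h

/-- four independent values give the bound -/
theorem bound (hc : PcanStatement) [CharZero K] (h : Pl D x t P) (z : MvPolynomial (Fin 3) K)
    (hz : z.IsHomogeneous 1) {ι : Type} [Fintype ι] (hι : Fintype.card ι = 4)
    (g : ι → MvPolynomial (Fin 3) K) (hg : ∀ i, g i ∈ mulS z 5)
    (hli : LinearIndependent K fun i => Phi D x t P (g i)) :
    24 ≤ Module.finrank K (R6 D x t P ⊔ mulS z 5 : Submodule K (MvPolynomial (Fin 3) K)) := by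
  classical
  have hR : R6 D x t P ≤ S3 K 6 := fun g hg => hg.1
  have hN : R6 D x t P ⊔ mulS z 5 ≤ S3 K 6 := sup_le hR (mulS_le z hz)
  obtain ⟨N, hNd⟩ : ∃ N, N = R6 D x t P ⊔ mulS z 5 := ⟨_, rfl⟩
  rw [← hNd] at hN ⊢
  have hf := fin_le hN
  let φ := (Phi D x t P).domRestrict N
  have h1 := LinearMap.finrank_range_add_finrank_ker φ
  have h2 : 4 ≤ Module.finrank K (LinearMap.range φ) := by
    let v : ι → LinearMap.range φ := fun i =>
      ⟨Phi D x t P (g i), ⟨⟨g i, by rw [hNd]; exact Submodule.mem_sup_right (hg i)⟩, rfl⟩⟩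
    have hv : LinearIndependent K v :=
      LinearIndependent.of_comp (LinearMap.range φ).subtype hli
    have := hv.fintype_card_le_finrank
    rwa [hι] at this
  have h3 : R6 D x t P = (LinearMap.ker φ).map N.subtype := by
    ext g
    constructor
    · intro hg
      refine ⟨⟨g, by rw [hNd]; exact Submodule.mem_sup_left hg⟩, ?_, rfl⟩
      change Phi D x t P g = 0
      exact Prod.ext hg.2.1 (funext hg.2.2)
    · rintro ⟨g, hg, rfl⟩
      have h0 : Phi D x t P g.1 = 0 := hg
      exact ⟨hN g.2, congrArg Prod.fst h0, fun i => congrFun (congrArg Prod.snd h0) i⟩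
  have h4 := finrank_R6 hc h
  rw [h3, Submodule.finrank_map_subtype_eq] at h4
  omega

/-- the forms `z F_v` -/
theorem zF (h : Pl D x t P) (ζ : Fin 3 → K) (v : Fin 5 → K) :
    ssub P (af (mE t fun j f => v f * ζ j) (D.F 0)) ∈ mulS (∑ i, C (ζ i) * X i) 5 := by
  classical
  refine ⟨∑ p, C (v p) * ssub P (pderiv p (D.F 0)), ?_, ?_⟩
  · change (∑ p, C (v p) * ssub P (pderiv p (D.F 0))).IsHomogeneous 5
    refine IsHomogeneous.sum _ _ _ fun p _ => ?_
    have h1 : (pderiv p (D.F 0)).IsHomogeneous 5 := (D.hom 0).pderiv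
    simpa using (isHomogeneous_C _ (v p)).mul (Edge.H65.ssub_hom P h1)
  · change (∑ i, C (ζ i) * X i) * _ = _
    unfold af
    rw [map_sum, Finset.mul_sum]
    refine Finset.sum_congr rfl fun p _ => ?_
    rw [map_mul, ← mul_assoc]
    congr 1
    unfold Sharp.H75.lf
    rw [map_sum]
    simp only [map_mul, Edge.H65.ssub_C, Edge.H65.ssub_X]
    have h2 : ∀ q, (C (mE t (fun j f => v f * ζ j) p q) : MvPolynomial (Fin 3) K) *
        ∑ i, C (P i q) * X i = ∑ i, C (mE t (fun j f => v f * ζ j) p q * P i q) * X i := by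
      intro q
      rw [Finset.mul_sum]
      exact Finset.sum_congr rfl fun i _ => by rw [map_mul, mul_assoc]
    simp only [h2]
    rw [Finset.sum_comm, Finset.sum_mul]
    refine Finset.sum_congr rfl fun i _ => ?_
    rw [← Finset.sum_mul, ← map_sum, mE_P h, map_mul]
    ring

theorem pcan_zF (hc : PcanStatement) [CharZero K] (h : Pl D x t P) (ζ : Fin 3 → K)
    (v : Fin 5 → K) :
    (∀ f, D.V x 0 (rename t (ssub P (af (mE t fun j f => v f * ζ j) (D.F 0)))) f =
      (∑ j, ζ j * x (t j)) * (v (t 0) * x f - v f)) ∧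
    ∀ i f, D.V (P i) 0 (rename t (ssub P (af (mE t fun j f => v f * ζ j) (D.F 0)))) f =
      ζ i * (∑ j, v (t j) * P j f - v f) := by
  obtain ⟨h1, h2⟩ := pcan_mE hc h fun j f => v f * ζ j
  refine ⟨fun f => ?_, fun i f => ?_⟩
  · rw [h1]
    have e : ∀ a : K, ∑ j, a * ζ j * x (t j) = a * ∑ j, ζ j * x (t j) := by
      intro a
      rw [Finset.mul_sum]
      exact Finset.sum_congr rfl fun j _ => by ring
    rw [e, e]
    ring
  · rw [h2, mul_sub, Finset.mul_sum]
    congr 1
    · exact Finset.sum_congr rfl fun j _ => by ring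
    · ring

/-- the line does not contain the point -/
theorem case_out (hc : PcanStatement) [CharZero K] (h : Pl D x t P) (ζ : Fin 3 → K)
    (hζ : ∑ j, ζ j * x (t j) ≠ 0) :
    24 ≤ Module.finrank K (R6 D x t P ⊔ mulS (∑ i, C (ζ i) * X i) 5 :
      Submodule K (MvPolynomial (Fin 3) K)) := by
  classical
  refine bound hc h _ (Edge.H65.form_hom ζ) (ι := {f : Fin 5 // f ≠ t 0}) (by simp)
    (fun f => ssub P (af (mE t fun j f' => (Pi.single f.1 (1 : K) : Fin 5 → K) f' * ζ j) (D.F 0)))
    (fun f => zF h ζ _) ?_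
  rw [Fintype.linearIndependent_iff]
  intro a ha f
  have h1 := congrFun (congrArg Prod.fst ha) f.1
  rw [Prod.fst_sum, Finset.sum_apply] at h1
  simp only [Prod.smul_fst, Pi.smul_apply, Phi_fst, (pcan_zF hc h ζ _).1, smul_eq_mul,
    Prod.fst_zero, Pi.zero_apply] at h1
  rw [Finset.sum_eq_single f] at h1
  · rw [Pi.single_eq_same, Pi.single_eq_of_ne (Ne.symm f.2)] at h1
    have h2 : a f * (∑ j, ζ j * x (t j)) = 0 := by linear_combination - h1
    exact (mul_eq_zero.1 h2).resolve_right hζ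
  · intro f' _ hf'
    have hne : f.1 ≠ f'.1 := fun e => hf' (Subtype.ext e.symm)
    rw [Pi.single_eq_of_ne hne, Pi.single_eq_of_ne (Ne.symm f'.2)]
    ring
  · intro h; exact absurd (Finset.mem_univ _) h

/-- a form which vanishes on the line is divisible -/
theorem dvd_line [Infinite K] {g : MvPolynomial (Fin 3) K} (ζ y : Fin 3 → K) (y0 : y 0 = 1)
    (hy : ∑ j, ζ j * y j = 0) (hζ : ζ ≠ 0)
    (hg : ∀ s r : K, s ≠ 0 → eval (fun j => s * y j + r * ![0, - ζ 2, ζ 1] j) g = 0) :
    (∑ i, C (ζ i) * X i) ∣ g := by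
  classical
  -- a coordinate different from the first
  obtain ⟨i, hi⟩ : ∃ a : Fin 2, ζ a.succ ≠ 0 := by
    by_contra hcon
    push Not at hcon
    apply hζ
    have h0 : ζ 0 = 0 := by
      rw [Fin.sum_univ_succ] at hy
      simp only [hcon, zero_mul, Finset.sum_const_zero, add_zero, y0, mul_one] at hy
      exact hy
    funext j
    refine Fin.cases ?_ (fun a => ?_) j
    · exact h0
    · exact hcon a
  obtain ⟨z, hzd⟩ : ∃ z, z = (∑ i, C (ζ i) * X i : MvPolynomial (Fin 3) K) := ⟨_, rfl⟩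
  rw [← hzd]
  let σ : MvPolynomial (Fin 3) K →ₐ[K] MvPolynomial (Fin 3) K :=
    aeval fun j => if j = i.succ then X j - C (ζ i.succ)⁻¹ * z else X j
  have hσ : z ∣ g - σ g := by
    rw [← Ideal.mem_span_singleton, ← Ideal.Quotient.eq_zero_iff_mem, map_sub, sub_eq_zero]
    have h1 : (Ideal.Quotient.mkₐ K (Ideal.span {z})).comp σ =
        Ideal.Quotient.mkₐ K (Ideal.span {z}) := by
      refine MvPolynomial.algHom_ext fun j => ?_
      rw [AlgHom.comp_apply]
      change Ideal.Quotient.mkₐ K (Ideal.span {z}) (aeval _ (X j)) = _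
      rw [aeval_X]
      split_ifs with hj
      · rw [map_sub, sub_eq_self, Ideal.Quotient.mkₐ_eq_mk, Ideal.Quotient.eq_zero_iff_mem]
        exact Ideal.mul_mem_left _ _ (Ideal.mem_span_singleton_self z)
      · rfl
    exact (DFunLike.congr_fun h1 g).symm
  have hz : ∀ a : Fin 3 → K, eval a z = ∑ j, ζ j * a j := by
    intro a
    rw [hzd, map_sum]
    exact Finset.sum_congr rfl fun j _ => by rw [map_mul, eval_C, eval_X]
  have h0 : σ g = 0 := by
    have h1 : X 0 * σ g = 0 := by
      refine MvPolynomial.funext fun a => ?_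
      rw [map_mul, eval_X, map_zero]
      by_cases ha : a 0 = 0
      · rw [ha, zero_mul]
      obtain ⟨b, hb⟩ : ∃ b : Fin 3 → K, b = fun j =>
        if j = i.succ then a j - (ζ i.succ)⁻¹ * ∑ l, ζ l * a l else a j := ⟨_, rfl⟩
      have hbj : ∀ j, b j = if j = i.succ then a j - (ζ i.succ)⁻¹ * ∑ l, ζ l * a l else a j :=
        fun j => congrFun hb j
      have h2 : eval a (σ g) = eval b g := by
        have h3 : (aeval a : MvPolynomial (Fin 3) K →ₐ[K] K).comp σ = aeval b := by
          refine MvPolynomial.algHom_ext fun j => ?_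
          rw [AlgHom.comp_apply]
          change aeval a (aeval _ (X j)) = aeval b (X j)
          rw [aeval_X, aeval_X, hbj]
          split_ifs
          · rw [map_sub, map_mul, aeval_C, aeval_X]
            change _ - (ζ i.succ)⁻¹ * eval a z = _
            rw [hz]
          · rw [aeval_X]
        exact DFunLike.congr_fun h3 g
      have hb0 : b 0 = a 0 := by
        rw [hb]
        exact if_neg (Fin.succ_ne_zero i).symm
      have hbz : ∑ j, ζ j * b j = 0 := by
        have h3 : ∑ j, ζ j * b j = ∑ j, ζ j * a j - ζ i.succ * ((ζ i.succ)⁻¹ * ∑ l, ζ l * a l) := by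
          rw [eq_sub_iff_add_eq]
          have h4 : ζ i.succ * ((ζ i.succ)⁻¹ * ∑ l, ζ l * a l) =
              ∑ j, if j = i.succ then ζ j * ((ζ i.succ)⁻¹ * ∑ l, ζ l * a l) else 0 := by
            rw [Finset.sum_ite_eq' Finset.univ i.succ, if_pos (Finset.mem_univ _)]
          rw [h4, ← Finset.sum_add_distrib]
          refine Finset.sum_congr rfl fun j _ => ?_
          rw [hbj]
          by_cases hj : j = i.succ
          · rw [if_pos hj, if_pos hj, hj]
            ring
          · rw [if_neg hj, if_neg hj]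
            ring
        rw [h3, mul_inv_cancel_left₀ hi, sub_self]
      rw [h2]
      -- `b` is on the line
      obtain ⟨β, hβ1, hβ2⟩ : ∃ β, b 1 - b 0 * y 1 = - β * ζ 2 ∧ b 2 - b 0 * y 2 = β * ζ 1 := by
        have e1 : ζ 1 * (b 1 - b 0 * y 1) + ζ 2 * (b 2 - b 0 * y 2) = 0 := by
          rw [Fin.sum_univ_three] at hbz hy
          rw [y0] at hy
          linear_combination hbz - b 0 * hy
        by_cases h1' : ζ 1 = 0
        · have h2' : ζ 2 ≠ 0 := by
            intro h2'
            apply hi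
            fin_cases i
            · exact h1'
            · exact h2'
          refine ⟨- (b 1 - b 0 * y 1) / ζ 2, ?_, ?_⟩
          · field_simp
          · rw [h1', zero_mul, zero_add] at e1
            rw [(mul_eq_zero.1 e1).resolve_left h2', h1', mul_zero]
        · refine ⟨(b 2 - b 0 * y 2) / ζ 1, ?_, ?_⟩
          · field_simp
            linear_combination e1
          · field_simp
      have h5 : b = fun j => a 0 * y j + β * ![0, - ζ 2, ζ 1] j := by
        rw [← hb0]
        funext j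
        fin_cases j
        · change b 0 = b 0 * y 0 + β * 0
          rw [y0]
          ring
        · change b 1 = b 0 * y 1 + β * (- ζ 2)
          linear_combination hβ1
        · change b 2 = b 0 * y 2 + β * ζ 1
          linear_combination hβ2
      rw [h5, hg _ _ ha, mul_zero]
    exact (mul_eq_zero.1 h1).resolve_left (X_ne_zero 0)
  rwa [h0, sub_zero] at hσ

theorem eval_ssub (a : Fin 3 → K) (G : MvPolynomial (Fin 5) K) :
    eval a (ssub P G) = eval (fun f => ∑ i, a i * P i f) G := by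
  have h : (aeval a : MvPolynomial (Fin 3) K →ₐ[K] K).comp (ssub P) =
      aeval fun f => ∑ i, a i * P i f := by
    refine MvPolynomial.algHom_ext fun j => ?_
    rw [AlgHom.comp_apply, Edge.H65.ssub_X, map_sum, aeval_X]
    refine Finset.sum_congr rfl fun i _ => ?_
    rw [map_mul, aeval_C, aeval_X]
    exact mul_comm _ _
  exact DFunLike.congr_fun h G

/-- the line contains the point -/
theorem case_in (hc : PcanStatement) [CharZero K] (h : Pl D x t P) (ζ : Fin 3 → K)
    (hζ0 : ζ ≠ 0) (hζ : ∑ j, ζ j * x (t j) = 0) :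
    24 ≤ Module.finrank K (R6 D x t P ⊔ mulS (∑ i, C (ζ i) * X i) 5 :
      Submodule K (MvPolynomial (Fin 3) K)) := by
  classical
  -- a second point
  obtain ⟨y', hy'⟩ : ∃ y' : Fin 5 → K, y' = fun f => ∑ i, ![0, - ζ 2, ζ 1] i * P i f := ⟨_, rfl⟩
  have hy't : ∀ j, y' (t j) = ![0, - ζ 2, ζ 1] j := by
    intro j
    rw [hy']
    change ∑ i, ![0, - ζ 2, ζ 1] i * P i (t j) = _
    rw [Finset.sum_eq_single j]
    · rw [h.Pt, if_pos rfl, mul_one]
    · intro i _ hi
      rw [h.Pt, if_neg hi, mul_zero]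
    · intro h; exact absurd (Finset.mem_univ _) h
  have h12 : ¬ (ζ 1 = 0 ∧ ζ 2 = 0) := by
    rintro ⟨h1, h2⟩
    apply hζ0
    have h0 : ζ 0 = 0 := by
      rw [Fin.sum_univ_three, h1, h2, h.x0] at hζ
      simpa using hζ
    funext j
    fin_cases j
    · exact h0
    · exact h1
    · exact h2
  have hli : LinearIndependent K ![x, y'] := by
    rw [LinearIndependent.pair_iff]
    intro s r hsr
    have e0 := congrFun hsr (t 0)
    have e1 := congrFun hsr (t 1)
    have e2 := congrFun hsr (t 2)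
    rw [Pi.add_apply, Pi.smul_apply, Pi.smul_apply, smul_eq_mul, smul_eq_mul, hy't] at e0 e1 e2
    have hs : s = 0 := by
      rw [h.x0] at e0
      simpa using e0
    subst hs
    refine ⟨rfl, ?_⟩
    by_contra hr
    apply h12
    constructor
    · have : r * ζ 1 = 0 := by simpa using e2
      exact (mul_eq_zero.1 this).resolve_left hr
    · have : r * ζ 2 = 0 := by simpa using e1
      exact (mul_eq_zero.1 this).resolve_left hr
  -- divisibility
  have hdiv : ∀ G : MvPolynomial (Fin 5) K, G.IsHomogeneous 6 → lineP G x y' = 0 →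
      ssub P G ∈ mulS (∑ i, C (ζ i) * X i) 5 := by
    intro G hG hG0
    have hd : (∑ i, C (ζ i) * X i) ∣ ssub P G := by
      have : Infinite K := Infinite.of_injective (fun m : ℕ => (m : K)) Nat.cast_injective
      refine dvd_line ζ (fun j => x (t j)) h.x0 hζ hζ0 fun s r hs => ?_
      rw [eval_ssub]
      have e : (fun f => ∑ i, (s * x (t i) + r * ![0, - ζ 2, ζ 1] i) * P i f) =
          fun f => s * (x f + (r / s) * y' f) := by
        funext f
        rw [h.xP f, hy']
        change _ = s * (_ + r / s * ∑ i, ![0, - ζ 2, ζ 1] i * P i f)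
        rw [mul_add, ← mul_assoc s (r / s), mul_div_cancel₀ r hs, Finset.mul_sum, Finset.mul_sum,
          ← Finset.sum_add_distrib]
        exact Finset.sum_congr rfl fun i _ => by ring
      rw [e, Sharp.H54.eval_smul_form hG, ← Sharp.H54.lineP_eval, hG0, Polynomial.eval_zero, mul_zero]
    obtain ⟨A, hA⟩ := hd
    by_cases h0 : ssub P G = 0
    · rw [h0]; exact Submodule.zero_mem _
    have h1 : ((∑ i, C (ζ i) * X i) * A).IsHomogeneous 6 := by
      rw [← hA]; exact Edge.H65.ssub_hom P hG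
    obtain ⟨-, h2⟩ := Edge.H9.Forms.hom_quot h1 (Edge.H65.form_hom ζ) (by rw [← hA]; exact h0)
    exact ⟨A, h2, hA.symm⟩
  obtain ⟨G1, hG1, hG1l, hG1v⟩ := h.ln y' 0 hli
  obtain ⟨G2, hG2, hG2l, hG2v⟩ := h.ln y' (D.V x 0 G1) hli
  obtain ⟨i0, hi0⟩ : ∃ i, ζ i ≠ 0 := Function.ne_iff.1 hζ0
  have : Fintype (Off t) := Fintype.ofFinite _
  have hcard : Fintype.card (Off t ⊕ Fin 2) = 4 := by
    rw [Fintype.card_sum, ← Nat.card_eq_fintype_card, card_off h.inj, Fintype.card_fin]
  refine bound hc h _ (Edge.H65.form_hom ζ) (ι := Off t ⊕ Fin 2) hcard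
    (Sum.elim (fun f => ssub P (af (mE t fun j f' => (Pi.single f.1 (1 : K) : Fin 5 → K) f' * ζ j)
      (D.F 0))) ![ssub P G1, ssub P G2])
    (by
      rintro (f | a)
      · exact zF h ζ _
      · fin_cases a
        · exact hdiv G1 hG1 hG1l
        · exact hdiv G2 hG2 hG2l) ?_
  rw [Fintype.linearIndependent_iff]
  intro a ha
  rw [Fintype.sum_sum_type, Fin.sum_univ_two] at ha
  simp only [Sum.elim_inl, Sum.elim_inr] at ha
  change ∑ f, a (Sum.inl f) • _ + (a (Sum.inr 0) • Phi D x t P (ssub P G1) +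
    a (Sum.inr 1) • Phi D x t P (ssub P G2)) = 0 at ha
  -- the point
  have e1 := congrArg Prod.fst ha
  rw [Prod.fst_add, Prod.fst_add, Prod.fst_sum, Prod.smul_fst, Prod.smul_fst, Phi_fst, Phi_fst,
    (V_rest h hG1).1, (V_rest h hG2).1, Finset.sum_eq_zero, zero_add, Prod.fst_zero] at e1
  swap
  · intro f _
    rw [Prod.smul_fst, Phi_fst]
    funext f'
    rw [Pi.smul_apply, (pcan_zF hc h ζ _).1, hζ, zero_mul, smul_zero]
    rfl
  have hb2 : a (Sum.inr 1) = 0 := by
    by_contra hne
    apply hG2v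
    have e2 : D.V x 0 G2 = (- (a (Sum.inr 1))⁻¹ * a (Sum.inr 0)) • D.V x 0 G1 := by
      have e3 := eq_neg_of_add_eq_zero_right e1
      have e4 : D.V x 0 G2 = (a (Sum.inr 1))⁻¹ • (a (Sum.inr 1) • D.V x 0 G2) := by
        rw [smul_smul, inv_mul_cancel₀ hne, one_smul]
      rw [e4, e3, smul_neg, smul_smul, neg_mul, neg_smul]
    rw [e2]
    exact Submodule.smul_mem _ _ (Submodule.subset_span (by simp))
  have hb1 : a (Sum.inr 0) = 0 := by
    rw [hb2, zero_smul, add_zero] at e1
    refine (smul_eq_zero.1 e1).resolve_right fun h0 => hG1v ?_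
    rw [h0]
    exact Submodule.zero_mem _
  -- the frame
  have hf : ∀ f, a (Sum.inl f) = 0 := by
    intro f
    have e5 := congrFun (congrFun (congrArg Prod.snd ha) i0) f.1
    rw [hb1, hb2, zero_smul, zero_smul, add_zero, add_zero, Prod.snd_sum, Finset.sum_apply,
      Finset.sum_apply] at e5
    simp only [Prod.smul_snd, Pi.smul_apply, Phi_snd, (pcan_zF hc h ζ _).2, smul_eq_mul,
      Prod.snd_zero, Pi.zero_apply] at e5
    have e6 : ∀ (f' : Off t) (j : Fin 3), (Pi.single f'.1 (1 : K) : Fin 5 → K) (t j) = 0 :=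
      fun f' j => Pi.single_eq_of_ne (fun e => f'.2 ⟨j, e⟩) _
    simp only [e6, zero_mul, Finset.sum_const_zero, zero_sub] at e5
    rw [Finset.sum_eq_single f] at e5
    · rw [Pi.single_eq_same] at e5
      have e7 : a (Sum.inl f) * ζ i0 = 0 := by linear_combination - e5
      exact (mul_eq_zero.1 e7).resolve_right hi0
    · intro f' _ hf'
      have hne : f.1 ≠ f'.1 := fun e => hf' (Subtype.ext e.symm)
      rw [Pi.single_eq_of_ne hne]
      ring
    · intro h; exact absurd (Finset.mem_univ _) h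
  rintro (f | b)
  · exact hf f
  · fin_cases b
    · exact hb1
    · exact hb2

end

/-- Row PHI. -/
theorem phi : PhiStatement := by
  intro hc K _ _ D x t P h
  refine ⟨fun g hg => hg.1, finrank_R6 hc h, fun z hz hz0 => ?_⟩
  obtain ⟨ζ, rfl⟩ := Edge.H9.lin_form hz
  have hζ0 : ζ ≠ 0 := by
    rintro rfl
    apply hz0
    simp
  by_cases hζ : ∑ j, ζ j * x (t j) = 0
  · exact case_in hc h ζ hζ0 hζ
  · exact case_out hc h ζ hζ

end Pool.Agent.T2.H79
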