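import Pool.Agent.Lib.MP_c7af3c_ag.T2.Iface
import Pool.Agent.Lib.MP_c7af3c_ag.T2.H76.Atk2
import Pool.Agent.Lib.MP_c7af3c_ag.LINES.H19.Lidl

/-!
# MP_c7af3c_ag, project T2: module RK1

If the span of `x` and the `W(p,q)` has dimension 2 and all `l ↦ V(A l)` have rank at most 1 modulo
this space, there is a line through `x` with all `V(G)`, `G` zero on the line, in this space.
-/

set_option autoImplicit false

namespace Pool.Agent.T2.H79

open Module MvPolynomial Pool.Agent.Gen Pool.Agent.Sharp Pool.Agent.Edge Pool.Agent.Lines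

section

variable {Ω : Type} [Field Ω] (D : D6 Ω) (x : Fin (4 + 1) → Ω) (j0 : Fin (4 + 1))

/-- `V` modulo the space of `x` and the `W(p,q)` -/
noncomputable def Vq : MvPolynomial (Fin (4 + 1)) Ω →ₗ[Ω] ((Fin (4 + 1) → Ω) ⧸ Wsp D x) :=
  (Wsp D x).mkQ ∘ₗ D.V x 0

theorem Vq_eq_zero {G : MvPolynomial (Fin (4 + 1)) Ω} : Vq D x G = 0 ↔ D.V x 0 G ∈ Wsp D x := by
  unfold Vq
  rw [LinearMap.comp_apply, Submodule.mkQ_apply, Submodule.Quotient.mk_eq_zero]

theorem x_mem_Wsp : x ∈ Wsp D x := Submodule.subset_span (Or.inl rfl)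

theorem WT_mem_Wsp (p q : Fin (4 + 1)) : WT D x p q ∈ Wsp D x :=
  Submodule.subset_span (Or.inr ⟨p, q, rfl⟩)

theorem Wsp_le_EA (A : MvPolynomial (Fin (4 + 1)) Ω) : Wsp D x ≤ EA D x j0 A := by
  unfold Wsp EA
  exact Submodule.span_mono (fun u hu => Or.inl hu)

variable {x j0}

/-- the linear forms which vanish at `x` are spanned by the `X_i - x_i X_j0` -/
theorem lin_eq_lf {l : Fin (4 + 1) → Ω} (hl : l ∈ H76.Mx x) :
    H76.lin Ω 4 l = ∑ i, l i • Sharp.lf x j0 i := by
  rw [H76.lin_apply]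
  have h1 : ∑ i, l i • Sharp.lf x j0 i = ∑ i, l i • (X i : MvPolynomial (Fin (4 + 1)) Ω) -
      (∑ i, l i * x i) • X j0 := by
    rw [Finset.sum_smul, ← Finset.sum_sub_distrib]
    refine Finset.sum_congr rfl fun i _ => ?_
    unfold Sharp.lf
    rw [smul_sub, mul_smul, smul_eq_C_mul (X j0) (x i)]
  rw [h1, H76.mem_Mx.1 hl, zero_smul, sub_zero]

theorem V_mem_EA {l : Fin (4 + 1) → Ω} (hl : l ∈ H76.Mx x)
    (A : MvPolynomial (Fin (4 + 1)) Ω) : D.V x 0 (A * H76.lin Ω 4 l) ∈ EA D x j0 A := by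
  rw [lin_eq_lf hl, Finset.mul_sum, map_sum]
  refine Submodule.sum_mem _ fun i _ => ?_
  rw [mul_smul_comm, map_smul]
  exact Submodule.smul_mem _ _ (Submodule.subset_span (Or.inr ⟨i, rfl⟩))

/-- small dimension of `EA` means small rank -/
theorem not_li (hW : finrank Ω (Wsp D x) = 2) {A : MvPolynomial (Fin (4 + 1)) Ω}
    (hA : finrank Ω (EA D x j0 A) ≤ 3) {l l' : Fin (4 + 1) → Ω} (hl : l ∈ H76.Mx x)
    (hl' : l' ∈ H76.Mx x) :
    ¬ LinearIndependent Ω ![Vq D x (A * H76.lin Ω 4 l), Vq D x (A * H76.lin Ω 4 l')] := by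
  intro h
  set E := EA D x j0 A with hE
  set p : E →ₗ[Ω] ((Fin (4 + 1) → Ω) ⧸ Wsp D x) := (Wsp D x).mkQ ∘ₗ E.subtype with hp
  have h1 := p.finrank_range_add_finrank_ker
  have h2 : finrank Ω (LinearMap.ker p) = 2 := by
    have e1 : LinearMap.ker p = (Wsp D x).comap E.subtype := by
      rw [hp, LinearMap.ker_comp, Submodule.ker_mkQ]
    rw [e1, ← hW]
    exact (Submodule.comapSubtypeEquivOfLe (Wsp_le_EA D x j0 A)).finrank_eq
  have h3 : 2 ≤ finrank Ω (LinearMap.range p) := by
    have e2 : LinearIndependent Ω (![⟨_, LinearMap.mem_range_self p ⟨_, V_mem_EA D hl A⟩⟩,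
        ⟨_, LinearMap.mem_range_self p ⟨_, V_mem_EA D hl' A⟩⟩] :
        Fin 2 → LinearMap.range p) := by
      rw [LinearIndependent.pair_iff] at h ⊢
      intro s t hst
      exact h s t (congrArg Subtype.val hst)
    have := e2.fintype_card_le_finrank
    simpa using this
  omega

/-- `V(G)` for `G` zero at `x` is in the space of the `V(A l)` -/
theorem mem_QV_of_eval (hx : x j0 = 1) {G : MvPolynomial (Fin (4 + 1)) Ω} (hG : G.IsHomogeneous 6)
    (h0 : eval x G = 0) : Vq D x G ∈ H76.QV x (Vq D x) 5 := by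
  have h1 : (⟨G, hG⟩ : homogeneousSubmodule (Fin (4 + 1)) Ω (5 + 1)) ∈
      Submodule.span Ω ({(⟨monomial (Finsupp.single j0 (5 + 1)) 1,
      H76.mono_mem (Finsupp.degree_single j0 (5 + 1))⟩ :
      homogeneousSubmodule (Fin (4 + 1)) Ω (5 + 1))} ∪ ⋃ B, Set.range (H76.muB x 5 B)) := by
    rw [H76.span_mu hx 5]
    trivial
  rw [Submodule.span_union, Submodule.mem_sup] at h1
  obtain ⟨a, ha, b, hb, hab⟩ := h1
  obtain ⟨c, rfl⟩ := Submodule.mem_span_singleton.1 ha
  have h2 : eval x (b : MvPolynomial (Fin (4 + 1)) Ω) = 0 ∧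
      Vq D x (b : MvPolynomial (Fin (4 + 1)) Ω) ∈ H76.QV x (Vq D x) 5 := by
    clear hab
    induction hb using Submodule.span_induction with
    | mem P h =>
      obtain ⟨B, l, rfl⟩ := Set.mem_iUnion.1 h
      have e1 : ((H76.muB x 5 B l : homogeneousSubmodule (Fin (4 + 1)) Ω (5 + 1)) :
          MvPolynomial (Fin (4 + 1)) Ω) = B * H76.lin Ω 4 l := rfl
      rw [e1]
      refine ⟨?_, H76.mem_QV B.2 l.2⟩
      rw [map_mul, H76.lin_apply, map_sum]
      have e2 : ∑ i, eval x ((l : Fin (4 + 1) → Ω) i • (X i : MvPolynomial (Fin (4 + 1)) Ω)) = 0 := by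
        rw [← H76.mem_Mx.1 l.2]
        exact Finset.sum_congr rfl fun i _ => by rw [smul_eval, eval_X]
      rw [e2, mul_zero]
    | zero => exact ⟨map_zero _, by
        have e1 : Vq D x (((0 : homogeneousSubmodule (Fin (4 + 1)) Ω (5 + 1)) :
          MvPolynomial (Fin (4 + 1)) Ω)) = 0 := map_zero _
        rw [e1]
        exact zero_mem _⟩
    | add P Q _ _ hP hQ =>
      rw [Submodule.coe_add, map_add, map_add]
      exact ⟨by rw [hP.1, hQ.1, add_zero], add_mem hP.2 hQ.2⟩
    | smul a P _ hP =>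
      rw [Submodule.coe_smul, smul_eval, map_smul]
      exact ⟨by rw [hP.1, mul_zero], Submodule.smul_mem _ _ hP.2⟩
  have h3 : G = C c * X j0 ^ 6 + (b : MvPolynomial (Fin (4 + 1)) Ω) := by
    have e1 := congrArg (fun P : homogeneousSubmodule (Fin (4 + 1)) Ω (5 + 1) =>
      (P : MvPolynomial (Fin (4 + 1)) Ω)) hab
    have e2 : (C c * X j0 ^ 6 : MvPolynomial (Fin (4 + 1)) Ω) =
        c • monomial (Finsupp.single j0 (5 + 1)) 1 := by
      rw [smul_eq_C_mul, X_pow_eq_monomial]
    rw [e2]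
    exact e1.symm
  have h4 : c = 0 := by
    rw [h3, map_add, h2.1, map_mul, map_pow, eval_X, eval_C, hx, one_pow, mul_one, add_zero] at h0
    exact h0
  rw [h3, h4, C_0, zero_mul, zero_add]
  exact h2.2

theorem mkQ_mem_QV (hx : x j0 = 1) {c : Fin (4 + 1) → Ω}
    (hc : ∑ p, eval x (pderiv p (D.F 0)) * c p = 0) :
    (Wsp D x).mkQ c ∈ H76.QV x (Vq D x) 5 := by
  have h1 : (∑ p, c p • (X j0 * pderiv p (D.F 0))).IsHomogeneous 6 := by
    refine IsHomogeneous.sum _ _ _ fun p _ => ?_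
    rw [smul_eq_C_mul]
    have h2 : (X j0 * pderiv p (D.F 0) : MvPolynomial (Fin (4 + 1)) Ω).IsHomogeneous 6 := by
      exact (isHomogeneous_X Ω j0).mul ((D.hom 0).pderiv (i := p))
    have := (isHomogeneous_C (Fin (4 + 1)) (c p)).mul h2
    rwa [zero_add] at this
  have h2 : eval x (∑ p, c p • (X j0 * pderiv p (D.F 0))) = 0 := by
    rw [map_sum, ← hc]
    refine Finset.sum_congr rfl fun p _ => ?_
    rw [smul_eval, map_mul, eval_X, hx, one_mul, mul_comm]
  have h3 := mem_QV_of_eval D hx h1 h2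
  have h4 : (Wsp D x).mkQ c + Vq D x (∑ p, c p • (X j0 * pderiv p (D.F 0))) = 0 := by
    have e1 : c = ∑ p, c p • (x j0 • Pi.single p (1 : Ω)) := by
      rw [hx]
      conv_lhs => rw [pi_eq_sum_univ c]
      refine Finset.sum_congr rfl fun p _ => ?_
      rw [one_smul]
      congr 1
      ext j
      rw [Pi.single_apply]
      simp only [eq_comm]
    have e4 := congrArg (Wsp D x).mkQ e1
    rw [map_sum] at e4
    rw [e4, map_sum, ← Finset.sum_add_distrib]
    refine Finset.sum_eq_zero fun p _ => ?_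
    have e2 : (Wsp D x).mkQ (x j0 • Pi.single p (1 : Ω)) + Vq D x (X j0 * pderiv p (D.F 0)) = 0 := by
      have e3 := WT_mem_Wsp D x p j0
      rw [← Submodule.Quotient.mk_eq_zero, ← Submodule.mkQ_apply] at e3
      unfold WT at e3
      rw [VT_apply, Fin.sum_univ_one, map_add] at e3
      exact e3
    rw [map_smul (Wsp D x).mkQ (c p), map_smul (Vq D x), ← smul_add, e2, smul_zero]
  rw [eq_neg_of_add_eq_zero_left h4]
  exact Submodule.neg_mem _ h3

theorem two_le_QV (hx : x j0 = 1) (hW : finrank Ω (Wsp D x) = 2) :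
    2 ≤ finrank Ω (H76.QV x (Vq D x) 5) := by
  set g : (Fin (4 + 1) → Ω) →ₗ[Ω] Ω :=
    ∑ p, (eval x (pderiv p (D.F 0))) • LinearMap.proj p with hg
  have hg1 : ∀ c, g c = ∑ p, eval x (pderiv p (D.F 0)) * c p := by
    intro c
    rw [hg, LinearMap.sum_apply]
    rfl
  have h1 := g.finrank_range_add_finrank_ker
  have h2 : finrank Ω (LinearMap.range g) ≤ 1 := by
    refine (Submodule.finrank_le _).trans ?_
    rw [finrank_self]
  rw [finrank_fin_fun] at h1
  have h3 : 4 ≤ finrank Ω (LinearMap.ker g) := by omega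
  set p : LinearMap.ker g →ₗ[Ω] ((Fin (4 + 1) → Ω) ⧸ Wsp D x) :=
    (Wsp D x).mkQ ∘ₗ (LinearMap.ker g).subtype with hp
  have h4 := p.finrank_range_add_finrank_ker
  have h5 : finrank Ω (LinearMap.ker p) ≤ 2 := by
    rw [← hW]
    have e1 : ∀ z : LinearMap.ker p, ((z : LinearMap.ker g) : Fin (4 + 1) → Ω) ∈ Wsp D x := by
      intro z
      have h6 : (Wsp D x).mkQ ((z : LinearMap.ker g) : Fin (4 + 1) → Ω) = 0 :=
        LinearMap.mem_ker.1 z.2
      rw [Submodule.mkQ_apply, Submodule.Quotient.mk_eq_zero] at h6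
      exact h6
    refine LinearMap.finrank_le_finrank_of_injective
      (f := LinearMap.codRestrict (Wsp D x) ((LinearMap.ker g).subtype ∘ₗ (LinearMap.ker p).subtype)
        e1) ?_
    intro z w hzw
    apply Subtype.ext
    apply Subtype.ext
    exact congrArg (fun a : Wsp D x => (a : Fin (4 + 1) → Ω)) hzw
  have h6 : LinearMap.range p ≤ H76.QV x (Vq D x) 5 := by
    rintro _ ⟨z, rfl⟩
    exact mkQ_mem_QV D hx (by rw [← hg1]; exact LinearMap.mem_ker.1 z.2)
  have h7 := Submodule.finrank_mono h6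
  omega

/-- the line ideal -/
theorem V_onLine [CharZero Ω] {y : Fin (4 + 1) → Ω} (hxy : LinearIndependent Ω ![x, y])
    (h : ∀ A : MvPolynomial (Fin (4 + 1)) Ω, A.IsHomogeneous 5 → ∀ l ∈ H76.Mx x,
      ∑ i, l i * y i = 0 → D.V x 0 (A * H76.lin Ω 4 l) ∈ Wsp D x)
    {G : MvPolynomial (Fin (4 + 1)) Ω} (hG : G.IsHomogeneous 6) (h0 : lineP G x y = 0) :
    D.V x 0 G ∈ Wsp D x := by
  have h1 := Lines.H19.lidl Ω 4 6 x y hxy G hG h0
  clear hG h0
  induction h1 using Submodule.span_induction with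
  | mem P hP =>
    obtain ⟨i, j, k, I, hI, rfl⟩ := hP
    have e1 : hT x y i j k * monomial I 1 = monomial I 1 * H76.lin Ω 4
        (plu x y i j • Pi.single k 1 - plu x y i k • Pi.single j 1 +
          plu x y j k • Pi.single i 1) := by
      rw [map_add, map_sub, map_smul, map_smul, map_smul, H76.lin_single, H76.lin_single,
        H76.lin_single, one_smul, one_smul, one_smul, mul_comm]
      unfold hT
      simp only [smul_eq_C_mul]
    have e2 : ∀ z : Fin (4 + 1) → Ω, ∑ r, (plu x y i j • Pi.single k 1 -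
        plu x y i k • Pi.single j 1 + plu x y j k • Pi.single i 1 : Fin (4 + 1) → Ω) r * z r =
        plu x y i j * z k - plu x y i k * z j + plu x y j k * z i := by
      intro z
      have e3 : ∀ (a : Ω) (m : Fin (4 + 1)),
          ∑ r, (a • Pi.single m 1 : Fin (4 + 1) → Ω) r * z r = a * z m := by
        intro a m
        rw [Finset.sum_eq_single m]
        · simp
        · intro r _ hr
          rw [Pi.smul_apply, Pi.single_eq_of_ne hr, smul_zero, zero_mul]
        · intro hm
          exact absurd (Finset.mem_univ m) hm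
      simp only [Pi.add_apply, Pi.sub_apply, add_mul, sub_mul, Finset.sum_add_distrib,
        Finset.sum_sub_distrib, e3]
    rw [e1]
    refine h _ (isHomogeneous_monomial _ (by omega)) _ ?_ ?_
    · rw [H76.mem_Mx, e2]
      unfold plu
      ring
    · rw [e2]
      unfold plu
      ring
  | zero =>
    rw [map_zero]
    exact zero_mem _
  | add P Q _ _ hP hQ =>
    rw [map_add]
    exact add_mem hP hQ
  | smul a P _ hP =>
    rw [map_smul]
    exact Submodule.smul_mem _ _ hP

end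

/-- Module RK1. -/
theorem rk1 : Rk1Statement := by
  intro Ω _ _ k D x j0 hx h0 hW hA
  have hk : ∀ A ∈ H76.intForms Ω 4 5, Fk k 5 (A : MvPolynomial (Fin (4 + 1)) Ω) := by
    intro A hA
    refine ⟨A.2, fun I => ?_⟩
    obtain ⟨z, hz⟩ := hA I
    rw [hz]
    exact intCast_mem k z
  set φ := H76.phiV x (Vq D x) 5 with hφ
  have hr : ∀ (A : H76.intForms Ω 4 5) (m m' : H76.Mx x),
      ¬ LinearIndependent Ω ![φ A m, φ A m'] := by
    intro A m m' hli
    have h1 := hli.map' (H76.QV x (Vq D x) 5).subtype (Submodule.ker_subtype _)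
    have h2 : (H76.QV x (Vq D x) 5).subtype ∘ ![φ A m, φ A m'] =
        ![Vq D x (A * H76.lin Ω 4 m), Vq D x (A * H76.lin Ω 4 m')] := by
      funext i
      fin_cases i <;> rfl
    rw [h2] at h1
    exact not_li D hW (hA _ (hk A A.2)) m.2 m'.2 h1
  rcases H76.rank_one (φ.toAddMonoidHom.comp (H76.intForms Ω 4 5).subtype) hr with
    ⟨q, hq⟩ | ⟨κ, m₁, A₁, A₂, hκ, hκm, -⟩
  · exfalso
    have h1 : ∀ A m, φ A m ∈ Submodule.span Ω {q} := by
      intro A m
      have h2 : A ∈ Submodule.span Ω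
          (H76.intForms Ω 4 5 : Set (homogeneousSubmodule (Fin (4 + 1)) Ω 5)) := by
        rw [H76.span_intForms]
        trivial
      induction h2 using Submodule.span_induction with
      | mem A hA => exact hq ⟨A, hA⟩ m
      | zero =>
        rw [map_zero, LinearMap.zero_apply]
        exact zero_mem _
      | add P Q _ _ hP hQ =>
        rw [map_add, LinearMap.add_apply]
        exact add_mem hP hQ
      | smul a P _ hP =>
        rw [map_smul, LinearMap.smul_apply]
        exact Submodule.smul_mem _ _ hP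
    have h2 : H76.QV x (Vq D x) 5 ≤
        Submodule.span Ω {(q : (Fin (4 + 1) → Ω) ⧸ Wsp D x)} := by
      conv_lhs => unfold H76.QV
      rw [Submodule.span_le]
      rintro _ ⟨A, l, hA, hl, rfl⟩
      obtain ⟨a, ha⟩ := Submodule.mem_span_singleton.1 (h1 ⟨A, hA⟩ ⟨l, hl⟩)
      exact Submodule.mem_span_singleton.2 ⟨a, congrArg Subtype.val ha⟩
    have h3 := Submodule.finrank_mono h2
    have h4 : finrank Ω (Submodule.span Ω {(q : (Fin (4 + 1) → Ω) ⧸ Wsp D x)}) ≤ 1 := by
      refine (finrank_span_le_card _).trans ?_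
      simp
    have h5 := two_le_QV D hx hW
    omega
  · obtain ⟨y, hy⟩ := H76.exists_vec κ
    have hxy : LinearIndependent Ω ![x, y] := by
      rw [LinearIndependent.pair_iff]
      intro s t hst
      have e1 : ∀ i, s * x i + t * y i = 0 := fun i => congrFun hst i
      have e2 : t = 0 := by
        have e3 : ∑ i, (m₁ : Fin (4 + 1) → Ω) i * (s * x i + t * y i) =
            s * ∑ i, (m₁ : Fin (4 + 1) → Ω) i * x i +
            t * ∑ i, (m₁ : Fin (4 + 1) → Ω) i * y i := by
          rw [Finset.mul_sum, Finset.mul_sum, ← Finset.sum_add_distrib]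
          exact Finset.sum_congr rfl fun i _ => by ring
        rw [H76.mem_Mx.1 m₁.2, ← hy, hκ, mul_zero, zero_add, mul_one] at e3
        rw [← e3]
        exact Finset.sum_eq_zero fun i _ => by rw [e1, mul_zero]
      refine ⟨?_, e2⟩
      have e4 := e1 j0
      rwa [e2, zero_mul, add_zero, hx, mul_one] at e4
    refine ⟨y, hxy, ?_⟩
    have h1 : ∀ A m, κ m = 0 → φ A m = 0 := by
      intro A m hm
      have h2 : A ∈ Submodule.span Ω
          (H76.intForms Ω 4 5 : Set (homogeneousSubmodule (Fin (4 + 1)) Ω 5)) := by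
        rw [H76.span_intForms]
        trivial
      induction h2 using Submodule.span_induction with
      | mem A hA =>
        have := hκm ⟨A, hA⟩ m
        rw [hm, zero_smul] at this
        exact this
      | zero => rw [map_zero, LinearMap.zero_apply]
      | add P Q _ _ hP hQ => rw [map_add, LinearMap.add_apply, hP, hQ, add_zero]
      | smul a P _ hP => rw [map_smul, LinearMap.smul_apply, hP, smul_zero]
    have h2 : Lines.E1 D x y ≤ Wsp D x := by
      unfold Lines.E1
      rw [Submodule.span_le]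
      rintro u ((hu | ⟨p, q, rfl⟩) | ⟨G, hG, hG0, rfl⟩)
      · rw [hu]
        exact x_mem_Wsp D x
      · exact WT_mem_Wsp D x p q
      · rw [VT_apply, Fin.sum_univ_one]
        refine V_onLine D hxy (fun A hA l hl hl' => ?_) (hG 0) (hG0 0)
        rw [← Vq_eq_zero]
        exact congrArg Subtype.val (h1 ⟨A, hA⟩ ⟨l, hl⟩ (by rw [hy]; exact hl'))
    rw [← hW]
    exact Submodule.finrank_mono h2

end Pool.Agent.T2.H79
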