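import Pool.Agent.Lib.MP_c7af3c_ag.T2.H76.Atk2
import Pool.Agent.Lib.MP_c7af3c_ag.LINES.H19.Bas

/-!
# MP_c7af3c_ag, project T2: module RK1 for tuples of forms

`T0` is a space of dimension 2 which contains `x` and the `W(p,q)`. If all maps `l ↦ V(A l)`
(`A` a tuple of integral forms, `l` linear forms zero at `x`) have rank at most 1 modulo `T0`, and
`c + 4 ≤ n + 1`, there is a line through `x` with all `V(G)`, `G` zero on the line, in `T0`.
-/

set_option autoImplicit false

namespace Pool.Agent.T2.H79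

open Module MvPolynomial Pool.Agent.Gen Pool.Agent.Sharp Pool.Agent.Lines

section

variable {Ω : Type} [Field Ω] {n c : ℕ} {d : Fin c → ℕ} (D : DSys Ω n c d)
  (x : Fin (n + 1) → Ω) (T : Submodule Ω (Fin (n + 1) → Ω))

/-- tuples times a linear form -/
noncomputable def mlT : (Fin c → MvPolynomial (Fin (n + 1)) Ω) →ₗ[Ω]
    (H76.Mx x →ₗ[Ω] (Fin c → MvPolynomial (Fin (n + 1)) Ω)) :=
  LinearMap.mk₂ Ω (fun A l m => A m * H76.lin Ω n l)
    (fun A A' l => funext fun m => by
      simp only [Pi.add_apply, add_mul])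
    (fun a A l => funext fun m => by
      simp only [Pi.smul_apply, smul_mul_assoc])
    (fun A l l' => funext fun m => by
      change A m * H76.lin Ω n (l + l' : Fin (n + 1) → Ω) = _ + _
      rw [map_add, mul_add])
    (fun a A l => funext fun m => by
      change A m * H76.lin Ω n (a • l : Fin (n + 1) → Ω) = a • _
      rw [map_smul, mul_smul_comm])

theorem mlT_apply (A : Fin c → MvPolynomial (Fin (n + 1)) Ω) (l : H76.Mx x) (m : Fin c) :
    mlT x A l m = A m * H76.lin Ω n l := rfl

/-- `V` modulo `T` -/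
noncomputable def VqT : (Fin c → MvPolynomial (Fin (n + 1)) Ω) →ₗ[Ω]
    ((Fin (n + 1) → Ω) ⧸ T) := T.mkQ ∘ₗ VT D x

theorem VqT_eq_zero {G : Fin c → MvPolynomial (Fin (n + 1)) Ω} :
    VqT D x T G = 0 ↔ VT D x G ∈ T := by
  unfold VqT
  rw [LinearMap.comp_apply, Submodule.mkQ_apply, Submodule.Quotient.mk_eq_zero]

/-- the maps `l ↦ V(A l)` modulo `T` -/
noncomputable def phT : (Fin c → MvPolynomial (Fin (n + 1)) Ω) →ₗ[Ω]
    (H76.Mx x →ₗ[Ω] ((Fin (n + 1) → Ω) ⧸ T)) :=
  (LinearMap.llcomp Ω (H76.Mx x) (Fin c → MvPolynomial (Fin (n + 1)) Ω)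
    ((Fin (n + 1) → Ω) ⧸ T) (VqT D x T)).comp (mlT x)

theorem phT_apply (A : Fin c → MvPolynomial (Fin (n + 1)) Ω) (l : H76.Mx x) :
    phT D x T A l = VqT D x T (mlT x A l) := rfl

variable (d) in
/-- integral tuples of degrees `d m - 1` -/
def intT (Ω : Type) [Field Ω] (n : ℕ) : AddSubgroup (Fin c → MvPolynomial (Fin (n + 1)) Ω) where
  carrier := {A | ∀ m, (A m).IsHomogeneous (d m - 1) ∧ ∀ I, ∃ z : ℤ, coeff I (A m) = z}
  add_mem' := by
    intro A B hA hB m
    refine ⟨(hA m).1.add (hB m).1, fun I => ?_⟩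
    obtain ⟨a, ha⟩ := (hA m).2 I
    obtain ⟨b, hb⟩ := (hB m).2 I
    exact ⟨a + b, by
      rw [Pi.add_apply, coeff_add, ha, hb]
      push_cast
      ring⟩
  zero_mem' := fun m => ⟨isHomogeneous_zero _ _ _, fun I => ⟨0, by simp⟩⟩
  neg_mem' := by
    intro A hA m
    refine ⟨(hA m).1.neg, fun I => ?_⟩
    obtain ⟨a, ha⟩ := (hA m).2 I
    exact ⟨-a, by
      rw [Pi.neg_apply, coeff_neg, ha]
      push_cast
      ring⟩

theorem one1_mono_mem {m : Fin c} {I : Fin (n + 1) →₀ ℕ} (hI : I.degree = d m - 1) :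
    one1 m (monomial I (1 : Ω)) ∈ intT d Ω n := by
  intro m'
  unfold one1
  split_ifs with h
  · subst h
    refine ⟨isHomogeneous_monomial _ hI, fun J => ?_⟩
    rw [coeff_monomial]
    split_ifs
    · exact ⟨1, by simp⟩
    · exact ⟨0, by simp⟩
  · exact ⟨isHomogeneous_zero _ _ _, fun J => ⟨0, by simp⟩⟩

theorem one1_linear (m : Fin c) (f : (Fin c → MvPolynomial (Fin (n + 1)) Ω) → Prop)
    (h0 : f 0) (hadd : ∀ A B, f A → f B → f (A + B)) (hsm : ∀ (a : Ω) A, f A → f (a • A))
    {e : ℕ} (hmon : ∀ I : Fin (n + 1) →₀ ℕ, I.degree = e → f (one1 m (monomial I (1 : Ω))))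
    {P : MvPolynomial (Fin (n + 1)) Ω} (hP : P.IsHomogeneous e) : f (one1 m P) := by
  have h1 : one1 m P = ∑ I ∈ P.support, coeff I P • one1 m (monomial I (1 : Ω)) := by
    funext m'
    rw [Finset.sum_apply]
    simp only [Pi.smul_apply]
    unfold one1
    split_ifs
    · conv_lhs => rw [← support_sum_monomial_coeff P]
      refine Finset.sum_congr rfl fun I _ => ?_
      rw [smul_monomial, smul_eq_mul, mul_one]
    · rw [Finset.sum_eq_zero fun I _ => smul_zero _]
  rw [h1]
  refine Finset.sum_induction _ f (fun A B => hadd A B) h0 fun I hI => hsm _ _ (hmon I ?_)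
  have := hP (mem_support_iff.1 hI)
  rw [Finsupp.degree_eq_weight_one]
  exact this

theorem tuple_linear (f : (Fin c → MvPolynomial (Fin (n + 1)) Ω) → Prop)
    (h0 : f 0) (hadd : ∀ A B, f A → f B → f (A + B)) (hsm : ∀ (a : Ω) A, f A → f (a • A))
    (hint : ∀ A ∈ intT d Ω n, f A)
    {A : Fin c → MvPolynomial (Fin (n + 1)) Ω} (hA : ∀ m, (A m).IsHomogeneous (d m - 1)) :
    f A := by
  rw [Lines.H19.sum_one1 A]
  exact Finset.sum_induction _ f (fun A B => hadd A B) h0 fun m _ =>
    one1_linear m f h0 hadd hsm (fun I hI => hint _ (one1_mono_mem hI)) (hA m)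

variable {x T} {j0 : Fin (n + 1)}

/-- forms zero at `x` -/
theorem mem_of_eval (hx : x j0 = 1) {e : ℕ} {G : MvPolynomial (Fin (n + 1)) Ω}
    (hG : G.IsHomogeneous (e + 1)) (h0 : eval x G = 0) :
    G ∈ Submodule.span Ω {P | ∃ (B : MvPolynomial (Fin (n + 1)) Ω) (l : H76.Mx x),
      B.IsHomogeneous e ∧ P = B * H76.lin Ω n l} := by
  have h1 : (⟨G, hG⟩ : homogeneousSubmodule (Fin (n + 1)) Ω (e + 1)) ∈
      Submodule.span Ω ({(⟨monomial (Finsupp.single j0 (e + 1)) 1,
      H76.mono_mem (Finsupp.degree_single j0 (e + 1))⟩ :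
      homogeneousSubmodule (Fin (n + 1)) Ω (e + 1))} ∪ ⋃ B, Set.range (H76.muB x e B)) := by
    rw [H76.span_mu hx e]
    trivial
  rw [Submodule.span_union, Submodule.mem_sup] at h1
  obtain ⟨a, ha, b, hb, hab⟩ := h1
  obtain ⟨s, rfl⟩ := Submodule.mem_span_singleton.1 ha
  set Z := Submodule.span Ω {P | ∃ (B : MvPolynomial (Fin (n + 1)) Ω) (l : H76.Mx x),
      B.IsHomogeneous e ∧ P = B * H76.lin Ω n l} with hZ
  have h2 : eval x (b : MvPolynomial (Fin (n + 1)) Ω) = 0 ∧
      (b : MvPolynomial (Fin (n + 1)) Ω) ∈ Z := by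
    clear hab
    induction hb using Submodule.span_induction with
    | mem P h =>
      obtain ⟨B, l, rfl⟩ := Set.mem_iUnion.1 h
      have e1 : ((H76.muB x e B l : homogeneousSubmodule (Fin (n + 1)) Ω (e + 1)) :
          MvPolynomial (Fin (n + 1)) Ω) = B * H76.lin Ω n l := rfl
      rw [e1]
      refine ⟨?_, Submodule.subset_span ⟨B, l, B.2, rfl⟩⟩
      rw [map_mul, H76.lin_apply, map_sum]
      have e2 : ∑ i, eval x ((l : Fin (n + 1) → Ω) i • (X i : MvPolynomial (Fin (n + 1)) Ω)) = 0 := by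
        rw [← H76.mem_Mx.1 l.2]
        exact Finset.sum_congr rfl fun i _ => by rw [smul_eval, eval_X]
      rw [e2, mul_zero]
    | zero => exact ⟨map_zero _, zero_mem _⟩
    | add P Q _ _ hP hQ =>
      rw [Submodule.coe_add, map_add]
      exact ⟨by rw [hP.1, hQ.1, add_zero], add_mem hP.2 hQ.2⟩
    | smul a P _ hP =>
      rw [Submodule.coe_smul, smul_eval]
      exact ⟨by rw [hP.1, mul_zero], Submodule.smul_mem _ _ hP.2⟩
  have h3 : G = C s * X j0 ^ (e + 1) + (b : MvPolynomial (Fin (n + 1)) Ω) := by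
    have e1 := congrArg (fun P : homogeneousSubmodule (Fin (n + 1)) Ω (e + 1) =>
      (P : MvPolynomial (Fin (n + 1)) Ω)) hab
    have e2 : (C s * X j0 ^ (e + 1) : MvPolynomial (Fin (n + 1)) Ω) =
        s • monomial (Finsupp.single j0 (e + 1)) 1 := by
      rw [smul_eq_C_mul, X_pow_eq_monomial]
    rw [e2]
    exact e1.symm
  have h4 : s = 0 := by
    rw [h3, map_add, h2.1, map_mul, map_pow, eval_X, eval_C, hx, one_pow, mul_one, add_zero] at h0
    exact h0
  rw [h3, h4, C_0, zero_mul, zero_add]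
  exact h2.2

/-- `V(G)` of a tuple zero at `x` is a combination of the `V(A l)` -/
theorem VqT_mem (hx : x j0 = 1) (hd : ∀ m, 1 ≤ d m)
    {R : Submodule Ω ((Fin (n + 1) → Ω) ⧸ T)}
    (hR : ∀ A : Fin c → MvPolynomial (Fin (n + 1)) Ω, (∀ m, (A m).IsHomogeneous (d m - 1)) →
      ∀ l, phT D x T A l ∈ R)
    {G : Fin c → MvPolynomial (Fin (n + 1)) Ω} (hG : ∀ m, (G m).IsHomogeneous (d m))
    (h0 : ∀ m, eval x (G m) = 0) : VqT D x T G ∈ R := by
  rw [Lines.H19.sum_one1 G, map_sum]
  refine Submodule.sum_mem _ fun m _ => ?_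
  have h1 : (G m).IsHomogeneous ((d m - 1) + 1) := by
    rw [Nat.sub_add_cancel (hd m)]
    exact hG m
  have h2 := mem_of_eval hx h1 (h0 m)
  generalize G m = P at h2
  induction h2 using Submodule.span_induction with
  | mem P hP =>
    obtain ⟨B, l, hB, rfl⟩ := hP
    have e1 := hR (one1 m B) (fun m' => by
      unfold one1
      split_ifs with h
      · subst h
        exact hB
      · exact isHomogeneous_zero _ _ _) l
    rw [phT_apply] at e1
    have e2 : mlT x (one1 m B) l = one1 m (B * H76.lin Ω n l) := by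
      funext m'
      rw [mlT_apply]
      unfold one1
      split_ifs
      · rfl
      · rw [zero_mul]
    rwa [e2] at e1
  | zero =>
    have : (one1 m 0 : Fin c → MvPolynomial (Fin (n + 1)) Ω) = 0 := by
      funext m'
      unfold one1
      split_ifs <;> rfl
    rw [this, map_zero]
    exact zero_mem _
  | add P Q _ _ hP hQ =>
    have : (one1 m (P + Q) : Fin c → MvPolynomial (Fin (n + 1)) Ω) = one1 m P + one1 m Q := by
      funext m'
      rw [Pi.add_apply]
      unfold one1
      split_ifs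
      · rfl
      · rw [add_zero]
    rw [this, map_add]
    exact add_mem hP hQ
  | smul a P _ hP =>
    have : (one1 m (a • P) : Fin c → MvPolynomial (Fin (n + 1)) Ω) = a • one1 m P := by
      funext m'
      rw [Pi.smul_apply]
      unfold one1
      split_ifs
      · rfl
      · rw [smul_zero]
    rw [this, map_smul]
    exact Submodule.smul_mem _ _ hP

theorem mkQ_memT (hx : x j0 = 1) (hd : ∀ m, 1 ≤ d m) (hWT : ∀ p q, WT D x p q ∈ T)
    {R : Submodule Ω ((Fin (n + 1) → Ω) ⧸ T)}
    (hR : ∀ A : Fin c → MvPolynomial (Fin (n + 1)) Ω, (∀ m, (A m).IsHomogeneous (d m - 1)) →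
      ∀ l, phT D x T A l ∈ R)
    {s : Fin (n + 1) → Ω} (hs : ∀ m, ∑ p, eval x (pderiv p (D.F m)) * s p = 0) :
    T.mkQ s ∈ R := by
  set G : Fin c → MvPolynomial (Fin (n + 1)) Ω :=
    ∑ p, s p • fun m => X j0 * pderiv p (D.F m) with hGdef
  have hGm : ∀ m, G m = ∑ p, s p • (X j0 * pderiv p (D.F m)) := by
    intro m
    rw [hGdef, Finset.sum_apply]
    rfl
  have h1 : ∀ m, (G m).IsHomogeneous (d m) := by
    intro m
    rw [hGm]
    refine IsHomogeneous.sum _ _ _ fun p _ => ?_
    rw [smul_eq_C_mul]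
    have h2 : (X j0 * pderiv p (D.F m) : MvPolynomial (Fin (n + 1)) Ω).IsHomogeneous (d m) := by
      have := (isHomogeneous_X Ω j0).mul ((D.hom m).pderiv (i := p))
      rwa [Nat.add_sub_cancel' (hd m)] at this
    have := (isHomogeneous_C (Fin (n + 1)) (s p)).mul h2
    rwa [zero_add] at this
  have h2 : ∀ m, eval x (G m) = 0 := by
    intro m
    rw [hGm, map_sum, ← hs m]
    refine Finset.sum_congr rfl fun p _ => ?_
    rw [smul_eval, map_mul, eval_X, hx, one_mul, mul_comm]
  have h3 := VqT_mem D hx hd hR h1 h2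
  have h4 : T.mkQ s + VqT D x T G = 0 := by
    have e1 : s = ∑ p, s p • (x j0 • Pi.single p (1 : Ω)) := by
      rw [hx]
      conv_lhs => rw [pi_eq_sum_univ s]
      refine Finset.sum_congr rfl fun p _ => ?_
      rw [one_smul]
      congr 1
      ext j
      rw [Pi.single_apply]
      simp only [eq_comm]
    have e4 := congrArg T.mkQ e1
    rw [map_sum] at e4
    rw [e4, hGdef, map_sum, ← Finset.sum_add_distrib]
    refine Finset.sum_eq_zero fun p _ => ?_
    have e2 : T.mkQ (x j0 • Pi.single p (1 : Ω)) +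
        VqT D x T (fun m => X j0 * pderiv p (D.F m)) = 0 := by
      have e3 := hWT p j0
      rw [← Submodule.Quotient.mk_eq_zero, ← Submodule.mkQ_apply] at e3
      unfold WT at e3
      rw [map_add] at e3
      exact e3
    rw [map_smul T.mkQ (s p), map_smul (VqT D x T), ← smul_add, e2, smul_zero]
  rw [eq_neg_of_add_eq_zero_left h4]
  exact Submodule.neg_mem _ h3

/-- the space `R` of all `V(A l)` modulo `T` is not small -/
theorem two_le_R (hx : x j0 = 1) (hd : ∀ m, 1 ≤ d m) (hn : c + 3 ≤ n)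
    (hWT : ∀ p q, WT D x p q ∈ T) (hT : finrank Ω T ≤ 2)
    {R : Submodule Ω ((Fin (n + 1) → Ω) ⧸ T)}
    (hR : ∀ A : Fin c → MvPolynomial (Fin (n + 1)) Ω, (∀ m, (A m).IsHomogeneous (d m - 1)) →
      ∀ l, phT D x T A l ∈ R) : 2 ≤ finrank Ω R := by
  set g : (Fin (n + 1) → Ω) →ₗ[Ω] (Fin c → Ω) :=
    LinearMap.pi fun m => ∑ p, (eval x (pderiv p (D.F m))) • LinearMap.proj p with hg
  have hg1 : ∀ s m, g s m = ∑ p, eval x (pderiv p (D.F m)) * s p := by
    intro s m
    rw [hg, LinearMap.pi_apply, LinearMap.sum_apply]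
    rfl
  have h1 := g.finrank_range_add_finrank_ker
  have h2 : finrank Ω (LinearMap.range g) ≤ c := by
    refine (Submodule.finrank_le _).trans ?_
    rw [finrank_fin_fun]
  rw [finrank_fin_fun] at h1
  have h3 : 4 ≤ finrank Ω (LinearMap.ker g) := by omega
  set p : LinearMap.ker g →ₗ[Ω] ((Fin (n + 1) → Ω) ⧸ T) :=
    T.mkQ ∘ₗ (LinearMap.ker g).subtype with hp
  have h4 := p.finrank_range_add_finrank_ker
  have h5 : finrank Ω (LinearMap.ker p) ≤ 2 := by
    refine le_trans ?_ hT
    have e1 : ∀ z : LinearMap.ker p, ((z : LinearMap.ker g) : Fin (n + 1) → Ω) ∈ T := by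
      intro z
      have h6 : T.mkQ ((z : LinearMap.ker g) : Fin (n + 1) → Ω) = 0 :=
        LinearMap.mem_ker.1 z.2
      rw [Submodule.mkQ_apply, Submodule.Quotient.mk_eq_zero] at h6
      exact h6
    refine LinearMap.finrank_le_finrank_of_injective
      (f := LinearMap.codRestrict T ((LinearMap.ker g).subtype ∘ₗ (LinearMap.ker p).subtype)
        e1) ?_
    intro z w hzw
    apply Subtype.ext
    apply Subtype.ext
    exact congrArg (fun a : T => (a : Fin (n + 1) → Ω)) hzw
  have h6 : LinearMap.range p ≤ R := by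
    rintro _ ⟨z, rfl⟩
    refine mkQ_memT D hx hd hWT hR fun m => ?_
    rw [← hg1]
    exact congrFun (LinearMap.mem_ker.1 z.2) m
  have h7 := Submodule.finrank_mono h6
  omega

/-- the ideal of the line -/
theorem V_onLineT [CharZero Ω] {y : Fin (n + 1) → Ω} (hxy : LinearIndependent Ω ![x, y])
    (h : ∀ A : Fin c → MvPolynomial (Fin (n + 1)) Ω, (∀ m, (A m).IsHomogeneous (d m - 1)) →
      ∀ l : H76.Mx x, ∑ i, (l : Fin (n + 1) → Ω) i * y i = 0 → phT D x T A l = 0)
    {G : Fin c → MvPolynomial (Fin (n + 1)) Ω} (hG : Hom d G) (h0 : OnLine x y G) :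
    VT D x G ∈ T := by
  rw [← VqT_eq_zero, Lines.H19.sum_one1 G, map_sum]
  refine Finset.sum_eq_zero fun m _ => ?_
  have h1 := Lines.H19.lidl Ω n (d m) x y hxy (G m) (hG m) (h0 m)
  generalize G m = P at h1
  induction h1 using Submodule.span_induction with
  | mem P hP =>
    obtain ⟨i, j, k, I, hI, rfl⟩ := hP
    have e1 : hT x y i j k * monomial I 1 = monomial I 1 * H76.lin Ω n
        (plu x y i j • Pi.single k 1 - plu x y i k • Pi.single j 1 +
          plu x y j k • Pi.single i 1) := by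
      rw [map_add, map_sub, map_smul, map_smul, map_smul, H76.lin_single, H76.lin_single,
        H76.lin_single, one_smul, one_smul, one_smul, mul_comm]
      unfold hT
      simp only [smul_eq_C_mul]
    have e2 : ∀ z : Fin (n + 1) → Ω, ∑ r, (plu x y i j • Pi.single k 1 -
        plu x y i k • Pi.single j 1 + plu x y j k • Pi.single i 1 : Fin (n + 1) → Ω) r * z r =
        plu x y i j * z k - plu x y i k * z j + plu x y j k * z i := by
      intro z
      have e3 : ∀ (a : Ω) (m : Fin (n + 1)),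
          ∑ r, (a • Pi.single m 1 : Fin (n + 1) → Ω) r * z r = a * z m := by
        intro a m
        rw [Finset.sum_eq_single m]
        · simp
        · intro r _ hr
          rw [Pi.smul_apply, Pi.single_eq_of_ne hr, smul_zero, zero_mul]
        · intro hm
          exact absurd (Finset.mem_univ m) hm
      simp only [Pi.add_apply, Pi.sub_apply, add_mul, sub_mul, Finset.sum_add_distrib,
        Finset.sum_sub_distrib, e3]
    have hl : (plu x y i j • Pi.single k 1 - plu x y i k • Pi.single j 1 +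
        plu x y j k • Pi.single i 1 : Fin (n + 1) → Ω) ∈ H76.Mx x := by
      rw [H76.mem_Mx, e2]
      unfold plu
      ring
    have e4 := h (one1 m (monomial I (1 : Ω))) (fun m' => by
      unfold one1
      split_ifs with hm
      · subst hm
        exact isHomogeneous_monomial _ (by omega)
      · exact isHomogeneous_zero _ _ _) ⟨_, hl⟩ (by
      change ∑ r, (plu x y i j • Pi.single k 1 - plu x y i k • Pi.single j 1 +
        plu x y j k • Pi.single i 1 : Fin (n + 1) → Ω) r * y r = 0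
      rw [e2]
      unfold plu
      ring)
    rw [phT_apply] at e4
    have e5 : mlT x (one1 m (monomial I (1 : Ω))) ⟨_, hl⟩ =
        one1 m (hT x y i j k * monomial I 1) := by
      funext m'
      rw [mlT_apply, e1]
      unfold one1
      split_ifs
      · rfl
      · rw [zero_mul]
    rwa [e5] at e4
  | zero =>
    have : (one1 m 0 : Fin c → MvPolynomial (Fin (n + 1)) Ω) = 0 := by
      funext m'
      unfold one1
      split_ifs <;> rfl
    rw [this, map_zero]
  | add P Q _ _ hP hQ =>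
    have : (one1 m (P + Q) : Fin c → MvPolynomial (Fin (n + 1)) Ω) = one1 m P + one1 m Q := by
      funext m'
      rw [Pi.add_apply]
      unfold one1
      split_ifs
      · rfl
      · rw [add_zero]
    rw [this, map_add, hP, hQ, add_zero]
  | smul a P _ hP =>
    have : (one1 m (a • P) : Fin c → MvPolynomial (Fin (n + 1)) Ω) = a • one1 m P := by
      funext m'
      rw [Pi.smul_apply]
      unfold one1
      split_ifs
      · rfl
      · rw [smul_zero]
    rw [this, map_smul, hP, smul_zero]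

/-- small dimension of `T + V(A L)` means small rank -/
theorem not_liT (hT : finrank Ω T = 2) {E : Submodule Ω (Fin (n + 1) → Ω)} (hTE : T ≤ E)
    (hE : finrank Ω E ≤ 3) {u v : Fin (n + 1) → Ω} (hu : u ∈ E) (hv : v ∈ E) :
    ¬ LinearIndependent Ω ![T.mkQ u, T.mkQ v] := by
  intro h
  set p : E →ₗ[Ω] ((Fin (n + 1) → Ω) ⧸ T) := T.mkQ ∘ₗ E.subtype with hp
  have h1 := p.finrank_range_add_finrank_ker
  have h2 : finrank Ω (LinearMap.ker p) = 2 := by
    have e1 : LinearMap.ker p = T.comap E.subtype := by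
      rw [hp, LinearMap.ker_comp, Submodule.ker_mkQ]
    rw [e1, ← hT]
    exact (Submodule.comapSubtypeEquivOfLe hTE).finrank_eq
  have h3 : 2 ≤ finrank Ω (LinearMap.range p) := by
    have e2 : LinearIndependent Ω (![⟨_, LinearMap.mem_range_self p ⟨_, hu⟩⟩,
        ⟨_, LinearMap.mem_range_self p ⟨_, hv⟩⟩] : Fin 2 → LinearMap.range p) := by
      rw [LinearIndependent.pair_iff] at h ⊢
      intro s t hst
      exact h s t (congrArg Subtype.val hst)
    have := e2.fintype_card_le_finrank
    simpa using this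
  omega

theorem lin_eq_lfT (j0 : Fin (n + 1)) {l : Fin (n + 1) → Ω} (hl : l ∈ H76.Mx x) :
    H76.lin Ω n l = ∑ i, l i • Sharp.lf x j0 i := by
  rw [H76.lin_apply]
  have h1 : ∑ i, l i • Sharp.lf x j0 i = ∑ i, l i • (X i : MvPolynomial (Fin (n + 1)) Ω) -
      (∑ i, l i * x i) • X j0 := by
    rw [Finset.sum_smul, ← Finset.sum_sub_distrib]
    refine Finset.sum_congr rfl fun i _ => ?_
    unfold Sharp.lf
    rw [smul_sub, mul_smul, smul_eq_C_mul (X j0) (x i)]
  rw [h1, H76.mem_Mx.1 hl, zero_smul, sub_zero]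

/-- RK1 for tuples. `hE`: for every integral tuple `A` the space `T` and the `V(A l)`, `l` the
forms `X_i - x_i X_j0`, lie in a space of dimension at most 3. -/
theorem rk1T [CharZero Ω] (hx : x j0 = 1) (hd : ∀ m, 1 ≤ d m) (hn : c + 3 ≤ n)
    (hWT : ∀ p q, WT D x p q ∈ T) (hT : finrank Ω T = 2)
    (hE : ∀ A ∈ intT d Ω n, ∃ E : Submodule Ω (Fin (n + 1) → Ω), T ≤ E ∧ finrank Ω E ≤ 3 ∧
      ∀ i, VT D x (mulT A (Sharp.lf x j0 i)) ∈ E) :
    ∃ y, LinearIndependent Ω ![x, y] ∧
      ∀ G : Fin c → MvPolynomial (Fin (n + 1)) Ω, Hom d G → OnLine x y G → VT D x G ∈ T := by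
  have hr : ∀ (A : intT d Ω n) (l l' : H76.Mx x),
      ¬ LinearIndependent Ω ![phT D x T A l, phT D x T A l'] := by
    intro A l l'
    obtain ⟨E, hTE, hE3, hEA⟩ := hE A A.2
    have h1 : ∀ l : H76.Mx x, VT D x (mlT x (A : Fin c → MvPolynomial (Fin (n + 1)) Ω) l) ∈ E := by
      intro l
      have e1 : mlT x (A : Fin c → MvPolynomial (Fin (n + 1)) Ω) l =
          ∑ i, (l : Fin (n + 1) → Ω) i •
            mulT (A : Fin c → MvPolynomial (Fin (n + 1)) Ω) (Sharp.lf x j0 i) := by
        funext m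
        rw [mlT_apply, lin_eq_lfT j0 l.2, Finset.sum_apply, Finset.mul_sum]
        refine Finset.sum_congr rfl fun i _ => ?_
        rw [Pi.smul_apply, mul_smul_comm]
        rfl
      rw [e1, map_sum]
      refine Submodule.sum_mem _ fun i _ => ?_
      rw [map_smul]
      exact Submodule.smul_mem _ _ (hEA i)
    exact not_liT hT hTE hE3 (h1 l) (h1 l')
  rcases H76.rank_one ((phT D x T).toAddMonoidHom.comp (intT d Ω n).subtype) hr with
    ⟨q, hq⟩ | ⟨κ, m₁, A₁, A₂, hκ, hκm, -⟩
  · exfalso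
    have h1 : ∀ A : Fin c → MvPolynomial (Fin (n + 1)) Ω, (∀ m, (A m).IsHomogeneous (d m - 1)) →
        ∀ l, phT D x T A l ∈ Submodule.span Ω {q} := by
      intro A hA
      refine tuple_linear (fun A => ∀ l, phT D x T A l ∈ Submodule.span Ω {q}) ?_ ?_ ?_ ?_ hA
      · intro l
        rw [map_zero, LinearMap.zero_apply]
        exact zero_mem _
      · intro A B hA hB l
        rw [map_add, LinearMap.add_apply]
        exact add_mem (hA l) (hB l)
      · intro a A hA l
        rw [map_smul, LinearMap.smul_apply]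
        exact Submodule.smul_mem _ _ (hA l)
      · intro A hA l
        exact hq ⟨A, hA⟩ l
    have h2 := two_le_R D hx hd hn hWT hT.le h1
    have h4 : finrank Ω (Submodule.span Ω {(q : (Fin (n + 1) → Ω) ⧸ T)}) ≤ 1 := by
      refine (finrank_span_le_card _).trans ?_
      simp
    omega
  · obtain ⟨y, hy⟩ := H76.exists_vec κ
    have hxy : LinearIndependent Ω ![x, y] := by
      rw [LinearIndependent.pair_iff]
      intro s t hst
      have e1 : ∀ i, s * x i + t * y i = 0 := fun i => congrFun hst i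
      have e2 : t = 0 := by
        have e3 : ∑ i, (m₁ : Fin (n + 1) → Ω) i * (s * x i + t * y i) =
            s * ∑ i, (m₁ : Fin (n + 1) → Ω) i * x i +
            t * ∑ i, (m₁ : Fin (n + 1) → Ω) i * y i := by
          rw [Finset.mul_sum, Finset.mul_sum, ← Finset.sum_add_distrib]
          exact Finset.sum_congr rfl fun i _ => by ring
        rw [H76.mem_Mx.1 m₁.2, ← hy, hκ, mul_zero, zero_add, mul_one] at e3
        rw [← e3]
        exact Finset.sum_eq_zero fun i _ => by rw [e1, mul_zero]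
      refine ⟨?_, e2⟩
      have e4 := e1 j0
      rwa [e2, zero_mul, add_zero, hx, mul_one] at e4
    refine ⟨y, hxy, fun G hG h0 => V_onLineT D hxy (fun A hA => ?_) hG h0⟩
    refine tuple_linear (fun A => ∀ l : H76.Mx x, ∑ i, (l : Fin (n + 1) → Ω) i * y i = 0 →
      phT D x T A l = 0) ?_ ?_ ?_ ?_ hA
    · intro l _
      rw [map_zero, LinearMap.zero_apply]
    · intro A B hA hB l hl
      rw [map_add, LinearMap.add_apply, hA l hl, hB l hl, add_zero]
    · intro a A hA l hl
      rw [map_smul, LinearMap.smul_apply, hA l hl, smul_zero]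
    · intro A hA l hl
      have := hκm ⟨A, hA⟩ l
      rw [hy, hl, zero_smul] at this
      exact this

end

end Pool.Agent.T2.H79
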